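import Pool.Agent.MP_0b991d_co.H88.Kn3

open Pool.Agent.MP_0b991d_co

/-- On the complete graph K_n, n large, OMaker wins the b-biased oriented-cycle game for all
b ≤ (2 - √2 - ε) n, under the strict and under the monotone rules. -/
theorem Pool.Agent.Results.MP_0b991d_co.CompleteLower.result :
    ∀ ε : ℝ, 0 < ε → ∃ N : ℕ, ∀ n ≥ N, ∀ (strict : Bool) (b : ℕ), 1 ≤ b →
      (b : ℝ) ≤ (2 - √2 - ε) * n → MakerWins strict b (⊤ : SimpleGraph (Fin n)) ∅ :=
  fun _ hε => H88.complete_lower hε
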