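import Pool.Agent.MP_0b991d_co.Prob

open Pool.Agent.MP_0b991d_co Filter Topology

/-- If b + 1 ≤ (1/2 - ε) n p, OMaker a.a.s. wins the b-biased oriented-cycle game on G(n, p),
under the strict and under the monotone rules. -/
theorem Pool.Agent.Results.MP_0b991d_co.LowerGnp.result :
    ∀ (strict : Bool) (ε : ℝ), 0 < ε → ∀ (p : ℕ → unitInterval) (b : ℕ → ℕ),
      (∀ᶠ n : ℕ in atTop, 1 ≤ b n ∧ (b n : ℝ) + 1 ≤ (1 / 2 - ε) * n * p n) →
      Tendsto (fun n : ℕ => (SimpleGraph.binomialRandom (Fin n) (p n)).real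
        {G | MakerWins strict (b n) G ∅}) atTop (𝓝 1) :=
  fun strict _ hε p b h => lower_tendsto strict hε p b h
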