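import Pool.Agent.MP_0b991d_co.ProbUpper

open Pool.Agent.MP_0b991d_co Filter Topology

/-- If b ≥ (1 + ε) n p + C(ε), OMaker a.a.s. does not win the b-biased oriented-cycle game on
G(n, p), under the strict and under the monotone rules, for every p = p(n). -/
theorem Pool.Agent.Results.MP_0b991d_co.UpperGnp.result :
    ∀ ε : ℝ, 0 < ε → ∃ C : ℝ, ∀ (strict : Bool) (p : ℕ → unitInterval) (b : ℕ → ℕ),
      (∀ᶠ n : ℕ in atTop, (1 + ε) * n * p n + C ≤ b n) →
      Tendsto (fun n : ℕ => (SimpleGraph.binomialRandom (Fin n) (p n)).real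
        {G | MakerWins strict (b n) G ∅}) atTop (𝓝 0) :=
  fun _ hε => upper_tendsto hε
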