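import Pool.Agent.MP_0b991d_co.H88.ProbQ

open Pool.Agent.MP_0b991d_co Filter Topology

/-- If n p ^ 4 ≥ C(ε) and b ≥ (24/31 + ε) n p, OMaker a.a.s. does not win the b-biased
oriented-cycle game on G(n, p) under the monotone rules. -/
theorem Pool.Agent.Results.MP_0b991d_co.UpperInterval.result :
    ∀ ε : ℝ, 0 < ε → ∃ C : ℝ, ∀ (p : ℕ → unitInterval) (b : ℕ → ℕ),
      (∀ᶠ n : ℕ in atTop, C ≤ n * (p n : ℝ) ^ 4 ∧ (24 / 31 + ε) * n * p n ≤ b n) →
      Tendsto (fun n : ℕ => (SimpleGraph.binomialRandom (Fin n) (p n)).real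
        {G | MakerWins false (b n) G ∅}) atTop (𝓝 0) :=
  fun _ hε => H88.upper2_tendsto hε
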